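import Mathlib
import Pool.Agent.H4.Sum1

set_option autoImplicit false
set_option maxHeartbeats 400000

open Filter Topology

namespace Pool.Agent.Results.MP_6ee6b4_an.NotDense

variable {X : Type} [NormedAddCommGroup X] [NormedSpace ℂ X]

/-- `pw m x n` is the power `x ^ (n + 1)` for the product `m`. -/
def pw {X : Type} (m : X × X → X) (x : X) : ℕ → X
  | 0 => x
  | n + 1 => m (pw m x n, x)

/-- The set of generators of a hypercyclic algebra for `T`. -/
def G (m : X × X → X) (T : X → X) : Set X :=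
  {x | x ≠ 0 ∧ ∀ y ∈ Submodule.span ℂ (Set.range (pw m x)), y ≠ 0 →
    Dense (Set.range fun n : ℕ => T^[n] y)}

/-- `m` is associative and commutative. -/
def AssocComm {X : Type} (m : X × X → X) : Prop :=
  (∀ x y z, m (m (x, y), z) = m (x, m (y, z))) ∧ ∀ x y, m (x, y) = m (y, x)

open Pool.Agent.H4.Sum in
theorem result : ∃ (X : Type) (_ : NormedAddCommGroup X) (_ : NormedSpace ℂ X) (_ : CompleteSpace X)
    (m : X × X → X) (T : X → X), IsBoundedBilinearMap ℂ m ∧ IsBoundedLinearMap ℂ T ∧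
    AssocComm m ∧ (G m T).Nonempty ∧ ¬ Dense (G m T) ∧ G m T ∉ residual X := by
  let φ : X →L[ℂ] ℂ := LinearMap.mkContinuous
    ⟨⟨fun x => x 0, fun _ _ => rfl⟩, fun _ _ => rfl⟩ 1 fun x => by rw [one_mul]; exact ap_le x 0
  have hφ : ∀ x, φ x = x 0 := fun _ => rfl
  let e : ℕ → X := fun k => mk (fun n => if n = k then 1 else 0) (tendsto_const_nhds.congr'
    (eventually_atTop.2 ⟨k + 1, fun j hj => (if_neg (by omega)).symm⟩))
  have he : ∀ k n, e k n = if n = k then 1 else 0 := fun _ _ => rfl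
  let m0 : X →L[ℂ] X →L[ℂ] X := φ.smulRight (φ.smulRight (e 1))
  let m : X × X → X := fun p => m0 p.1 p.2
  have hm : ∀ x y, m (x, y) = (x 0 * y 0) • e 1 := fun x y => by simp [m, m0, hφ, smul_smul]
  have hG : ∀ y : X, (fun n : ℕ => T^[n] y) = fun n : ℕ => (T ^ n) y := fun y => by
    funext n; rw [ContinuousLinearMap.coe_pow']
  have nd : ¬ Dense (G m T) := by
    intro hd
    obtain ⟨x, hx, h1⟩ := hd.exists_mem_open (isClosed_eq φ.continuous continuous_const).isOpen_compl
      ⟨e 0, show φ (e 0) ≠ 0 by simp [hφ, he]⟩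
    have h2 : x 0 * x 0 ≠ 0 := mul_self_ne_zero.2 h1
    have h3 := hx.2 (m (x, x)) (Submodule.subset_span ⟨1, rfl⟩) fun h => by
      have := congrArg (fun z : X => z 1) h
      simp [hm, he] at this
      exact h1 this
    rw [hG] at h3
    obtain ⟨_, ⟨n, rfl⟩, hn⟩ := h3.exists_dist_lt (e 2) one_pos
    have := (ap_le _ 2).trans_lt (dist_eq_norm (e 2) _ ▸ hn)
    change ‖e 2 2 - (T ^ n) (m (x, x)) 2‖ < 1 at this
    rw [T_pow, hm] at this
    simp [he, show 2 + n ≠ 1 by omega] at this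
  refine ⟨X, inferInstance, inferInstance, inferInstance, m, T, m0.isBoundedBilinearMap,
    T.isBoundedLinearMap, ⟨fun x y z => by simp [hm, he],
    fun x y => by rw [hm, hm, mul_comm]⟩, ?_, nd, fun h => nd (dense_of_mem_residual h)⟩
  obtain ⟨σ, hσ⟩ := exists_surjective_nat (H4.Dust.Tg × ℕ × Bool)
  let y : X := mk (fun n => if n = 0 then 0 else w σ n) ((w_tend σ).congr'
    (eventually_atTop.2 ⟨1, fun j hj => (if_neg (by omega)).symm⟩))
  have hy : Dense (Set.range fun n : ℕ => (T ^ n) y) := dense_iff_inter_open.2 fun U hU hne => by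
    obtain ⟨δ, hδ, h⟩ := fhc σ hσ y (!(cl σ 0).2.2) (fun n hn => if_neg (by rintro rfl; simp at hn))
      U hU hne
    obtain ⟨N, h1, h2⟩ := (h.and (eventually_ge_atTop 1)).exists
    have : (0 : ℝ) < δ * N := by positivity
    obtain ⟨n, hn⟩ := Set.nonempty_of_ncard_ne_zero (s := {n : ℕ | n < N ∧ (T ^ n) y ∈ U})
      (by intro h0; rw [h0] at h1; simp at h1; linarith)
    exact ⟨_, hn.2, n, rfl⟩
  refine ⟨y, fun h => ?_, fun z hz h0 => ?_⟩
  · obtain ⟨_, ⟨n, rfl⟩, hn⟩ := hy.exists_dist_lt (e 0) one_pos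
    have := (ap_le _ 0).trans_lt (dist_eq_norm (e 0) _ ▸ hn)
    simp [h, he] at this
  · have : Submodule.span ℂ (Set.range (pw m y)) ≤ ℂ ∙ y := by
      refine Submodule.span_le.2 ?_
      rintro _ ⟨_ | n, rfl⟩
      · exact Submodule.mem_span_singleton_self y
      · rw [pw, hm, show y 0 = 0 from rfl]; simp
    obtain ⟨c, rfl⟩ := Submodule.mem_span_singleton.1 (this hz)
    have hc : c ≠ 0 := by rintro rfl; simp at h0
    have := (Homeomorph.smulOfNeZero c hc).surjective.denseRange.comp hy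
      (Homeomorph.smulOfNeZero c hc).continuous
    rw [hG]
    simp only [map_smul]
    exact this

end Pool.Agent.Results.MP_6ee6b4_an.NotDense
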